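import Pool.Agent.H658R2.GD.Upper

set_option autoImplicit false

open Filter Topology

namespace Pool.Agent.Results.MP_7feb78_co.EdgeQ2

/-- The graph `G` has diameter at most `d`, and for every edge `e` of `G` the graph `G - e` has
diameter at most `d`. (The first clause only excludes the graphs without edges, for which there is
nothing to delete.) -/
def EdgeRobust {V : Type} (d : ℕ) (G : SimpleGraph V) : Prop :=
  G.ediam ≤ (d : ℕ∞) ∧ ∀ e ∈ G.edgeSet, (G.deleteEdges {e}).ediam ≤ (d : ℕ∞)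

/-- The minimum size of a graph `G` of order `n` such that for every edge `e` the graph `G - e`
has diameter at most `d`. -/
noncomputable def ghat (n d : ℕ) : ℕ :=
  sInf {m : ℕ | ∃ G : SimpleGraph (Fin n), EdgeRobust d G ∧ G.edgeSet.ncard = m}

open Pool.Agent.H658R2 in
/-- the construction -/
theorem upper (n d : ℕ) (hd : 3 ≤ d) (hn : 2 * d / 3 + 1 ≤ n) :
    ∃ G : SimpleGraph (Fin n), EdgeRobust d G ∧
      G.edgeSet.ncard ≤ (n - 1) / (2 * d / 3) * (2 * d / 3 + 1) + (n - 1) % (2 * d / 3) * 2 := by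
  have hb : 2 ≤ 2 * d / 3 := by omega
  set b := 2 * d / 3 with hbdef
  obtain ⟨q, hq⟩ : ∃ q, (n - 1) / b = q + 1 := by
    have : 0 < (n - 1) / b := Nat.div_pos (by omega) (by omega)
    exact ⟨(n - 1) / b - 1, by omega⟩
  set t := (n - 1) % b with ht
  have hcard : Fintype.card (GD.Vx q b t) = n := by
    simp only [GD.Vx, Fintype.card_option, Fintype.card_sum, Fintype.card_prod, Fintype.card_fin]
    have := Nat.div_add_mod (n - 1) b
    rw [hq] at this
    rw [mul_comm (q + 1) b]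
    omega
  let e := Fintype.equivFinOfCardEq hcard
  have φ := SimpleGraph.Iso.map e (GD.Gr q b t)
  refine ⟨(GD.Gr q b t).map e.toEmbedding, ?_, ?_⟩
  · exact GD.robust_of_re φ (fun e x y => GD.re_all hd e x y)
  · have h1 := GD.ncard_edgeSet_le (q := q) (t := t) hb
    rw [hq]
    refine le_trans (le_of_eq ?_) h1
    exact (Set.ncard_congr' φ.mapEdgeSet).symm

theorem ghat_mem (n d : ℕ) (hd : 3 ≤ d) (hn : 2 * d / 3 + 1 ≤ n) :
    ∃ G : SimpleGraph (Fin n), EdgeRobust d G ∧ G.edgeSet.ncard = ghat n d := by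
  have hne : {m : ℕ | ∃ G : SimpleGraph (Fin n), EdgeRobust d G ∧
      G.edgeSet.ncard = m}.Nonempty := by
    obtain ⟨G, hG, _⟩ := upper n d hd hn
    exact ⟨_, G, hG, rfl⟩
  exact Nat.sInf_mem hne

theorem ghat_le (n d : ℕ) (hd : 3 ≤ d) (hn : 2 * d / 3 + 1 ≤ n) :
    ghat n d ≤ (n - 1) / (2 * d / 3) * (2 * d / 3 + 1) + (n - 1) % (2 * d / 3) * 2 := by
  obtain ⟨G, hG, h1⟩ := upper n d hd hn
  have h2 : ghat n d ≤ G.edgeSet.ncard := Nat.sInf_le ⟨G, hG, rfl⟩
  exact h2.trans h1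

open Classical in
theorem le_ghat (n d D : ℕ) (hd : 3 ≤ d) (hn : 2 * d / 3 + 1 ≤ n) :
    D * ((2 * d / 3 + 1) * n) ≤ (D * (2 * d / 3) + 2 * (2 * d / 3 + 1)) * ghat n d +
      D * ((2 * d / 3 + 1) * (D + 1) ^ d) := by
  obtain ⟨G, hG, h1⟩ := ghat_mem n d hd hn
  have h2 := Pool.Agent.H658R2.GD.lower (D := D) (G := G) hG
  rw [Fintype.card_fin] at h2
  have h3 : G.edgeFinset.card = ghat n d := by
    rw [← h1, ← SimpleGraph.coe_edgeFinset, Set.ncard_coe_finset]
  have h4 : D * (Finset.univ.filter fun v => D ≤ G.degree v).card ≤ 2 * ghat n d := by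
    rw [← h3, ← SimpleGraph.sum_degrees_eq_twice_card_edges, mul_comm]
    calc (Finset.univ.filter fun v => D ≤ G.degree v).card * D
        = ∑ v ∈ Finset.univ.filter fun v => D ≤ G.degree v, D := by simp
      _ ≤ ∑ v ∈ Finset.univ.filter fun v => D ≤ G.degree v, G.degree v :=
          Finset.sum_le_sum fun v hv => (Finset.mem_filter.1 hv).2
      _ ≤ ∑ v, G.degree v :=
          Finset.sum_le_sum_of_subset (Finset.filter_subset _ _)
  rw [h3] at h2
  set b := 2 * d / 3
  set g := ghat n d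
  set T := (Finset.univ.filter fun v => D ≤ G.degree v).card
  have h5 := Nat.mul_le_mul_left D h2
  have h6 := Nat.mul_le_mul_left (b + 1) h4
  nlinarith

/-- For every `d ≥ 3` (in particular for every `d ≥ 5`) the minimum size of a graph of order `n`
all of whose edge-deleted subgraphs have diameter at most `d` is
`((b + 1) / b + o(1)) n` with `b = ⌊2 d / 3⌋`. -/
theorem result (d : ℕ) (hd : 3 ≤ d) :
    Tendsto (fun n : ℕ => (ghat n d : ℝ) / n) atTop
      (𝓝 ((((2 * d / 3 : ℕ) : ℝ) + 1) / ((2 * d / 3 : ℕ) : ℝ))) := by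
  have hb : 2 ≤ 2 * d / 3 := by omega
  have hlow := fun n D => le_ghat n d D hd
  have hup := fun n => ghat_le n d hd
  generalize 2 * d / 3 = b at *
  have hb0 : (0 : ℝ) < b := by
    have : (2 : ℝ) ≤ b := by exact_mod_cast hb
    linarith
  refine tendsto_order.2 ⟨fun a ha => ?_, fun a ha => ?_⟩
  · -- lower bound
    have hD : Tendsto (fun D : ℕ => ((b : ℝ) + 1) / (b + 2 * (b + 1) / (D : ℝ))) atTop
        (𝓝 (((b : ℝ) + 1) / b)) := by
      have h1 : Tendsto (fun D : ℕ => (b : ℝ) + 2 * (b + 1) / (D : ℝ)) atTop (𝓝 ((b : ℝ) + 0)) :=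
        tendsto_const_nhds.add (tendsto_const_div_atTop_nhds_zero_nat _)
      rw [add_zero] at h1
      exact tendsto_const_nhds.div h1 hb0.ne'
    obtain ⟨D, hD1, hD2⟩ := (((tendsto_order.1 hD).1 a ha).and (eventually_ge_atTop 1)).exists
    have hD0 : (0 : ℝ) < D := by exact_mod_cast hD2
    have hc : ((b : ℝ) + 1) / (b + 2 * (b + 1) / (D : ℝ)) =
        D * (b + 1) / (D * b + 2 * (b + 1)) := by
      field_simp
    rw [hc] at hD1
    have h2 : Tendsto (fun n : ℕ => D * ((b : ℝ) + 1) / (D * b + 2 * (b + 1)) -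
        D * ((b : ℝ) + 1) / (D * b + 2 * (b + 1)) * ((D : ℝ) + 1) ^ d / (n : ℝ)) atTop
        (𝓝 (D * ((b : ℝ) + 1) / (D * b + 2 * (b + 1)) - 0)) :=
      tendsto_const_nhds.sub (tendsto_const_div_atTop_nhds_zero_nat _)
    rw [sub_zero] at h2
    filter_upwards [(tendsto_order.1 h2).1 a hD1, eventually_ge_atTop (b + 1)] with n hn1 hn2
    refine hn1.trans_le ?_
    have hn0 : (0 : ℝ) < n := by
      have : 0 < n := by omega
      exact_mod_cast this
    have h3 := hlow n D hn2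
    have h4 : (D : ℝ) * (((b : ℝ) + 1) * n) ≤ (D * b + 2 * (b + 1)) * ghat n d +
      D * ((b + 1) * ((D : ℝ) + 1) ^ d) := by exact_mod_cast h3
    have hden : (0 : ℝ) < D * b + 2 * (b + 1) := by positivity
    rw [le_div_iff₀ hn0, sub_mul, div_mul_cancel₀ _ hn0.ne', sub_le_iff_le_add, div_mul_eq_mul_div,
      div_mul_eq_mul_div, ← sub_le_iff_le_add, ← sub_div, div_le_iff₀ hden]
    nlinarith
  · -- upper bound
    have h2 : Tendsto (fun n : ℕ => ((b : ℝ) + 1) / b + 2 * (b : ℝ) / (n : ℝ)) atTop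
        (𝓝 (((b : ℝ) + 1) / b + 0)) :=
      tendsto_const_nhds.add (tendsto_const_div_atTop_nhds_zero_nat _)
    rw [add_zero] at h2
    filter_upwards [(tendsto_order.1 h2).2 a ha, eventually_ge_atTop (b + 1)] with n hn1 hn2
    refine lt_of_le_of_lt ?_ hn1
    have hn0 : (0 : ℝ) < n := by
      have : 0 < n := by omega
      exact_mod_cast this
    have h3 := hup n hn2
    have h5 : (n - 1) / b * b ≤ n := (Nat.div_mul_le_self _ _).trans (Nat.sub_le _ _)
    have h6 : (n - 1) % b < b := Nat.mod_lt _ (by omega)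
    have h7 : (ghat n d : ℝ) ≤ ((n - 1) / b : ℕ) * ((b : ℝ) + 1) + ((n - 1) % b : ℕ) * 2 := by
      exact_mod_cast h3
    have h8 : (((n - 1) / b : ℕ) : ℝ) ≤ n / b := by
      rw [le_div_iff₀ hb0]
      exact_mod_cast h5
    have h9 : (((n - 1) % b : ℕ) : ℝ) ≤ b := by exact_mod_cast h6.le
    have h10 : (ghat n d : ℝ) ≤ n / b * ((b : ℝ) + 1) + b * 2 := by
      have h11 := mul_le_mul_of_nonneg_right h8 (by positivity : (0 : ℝ) ≤ (b : ℝ) + 1)
      linarith
    rw [div_le_iff₀ hn0]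
    calc (ghat n d : ℝ) ≤ n / b * ((b : ℝ) + 1) + b * 2 := h10
      _ = (((b : ℝ) + 1) / b + 2 * b / n) * n := by
        field_simp

end Pool.Agent.Results.MP_7feb78_co.EdgeQ2
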